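import Pool.Agent.J4.H18.MS.Prep

/-!
Abundance for the images of fibrations by curves, with several maps on the base.
-/

set_option autoImplicit false
set_option linter.overlappingInstances false
set_option linter.unusedSectionVars false
set_option linter.unusedVariables false
set_option maxHeartbeats 4000000
set_option synthInstance.maxHeartbeats 400000

open Polynomial FF IntermediateField Module

namespace Pool.Agent.J4.H18.MS

open Pool.Agent.W603.LV Pool.Agent.W619.PQ Pool.Agent.N145.PC Pool.Agent.N145.PL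
open Pool.Agent.N145.SX
open Pool.Agent.W602.GT (Divisorial RegAt IsPluri DerReg DerLog LogAt KodGe LogSec Psef)
open Pool.Agent.Y184.NT (trForm trForm_pluri)
open Pool.Agent.R882.LT (TraceNe SecAt secAt_of trForm_sec)
open Pool.Agent.J4.H19.FC (Gen GF toGF GenusZero dich_gen cov_of_line)

open scoped Classical

section

variable {K : Type} [Field K] [Algebra ℂ K] {k n : ℕ} {F : Fin k → IntermediateField ℂ K}
  {S : Fin k → Set K} {J : Type} {ω : J → (Fin (n + 1) → Derivation ℂ K K) → K}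
  {L : Type} [Field L] [Algebra ℂ L] [Algebra L K] [IsScalarTower ℂ L K] [FiniteDimensional L K]

/-- the traces -/
theorem setup [Algebra.EssFiniteType ℂ K] (hK : Algebra.trdeg ℂ K = (n + 1 : ℕ))
    {B : IntermediateField ℂ K} (hBF : B = ⨆ i, F i) (hω : ∀ j, IsPluri 1 (ω j))
    (hreg : ∀ s : Fin k → K, (∀ i, s i ∈ F i ∧ s i ∈ S i) → ∀ j, ∀ P : Place ℂ K,
      Divisorial (n + 1) P → RegAt P (fun D => (∏ i, s i) * ω j D))
    {y : Fin (n + 1) → L} {E : Fin (n + 1) → Derivation ℂ L L} (hy : IsTranscendenceBasis ℂ y)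
    (hE : ∀ i j, E i (y j) = if i = j then 1 else 0) {E1 : Fin (n + 1) → Derivation ℂ K K}
    (hE1 : ∀ i f, E1 i (algebraMap L K f) = algebraMap L K (E i f)) :
    ∃ H : ∀ i, Set (ext F i),
      (∀ φ : ext F (Fin.last k), φ ∈ H (Fin.last k) ↔ ∃ j, (φ : K) = ω j E1) ∧
      (∀ f : ∀ i, ext F i, (∀ i, f i ∈ H i) → ∀ P : Place ℂ L, Divisorial (n + 1) P →
        RegAt P (trForm y (Algebra.trace L K (1 * ∏ i, algebraMap (ext F i) K (f i))))) ∧
      ∀ r : Fin k → ℕ, (∀ i, Separates (F i) (S i) (r i)) → ∃ gg : Fin (k + 1) → ℕ,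
        (∀ i : Fin k, gg i.castSucc = r i + 1) ∧
        ∀ (Ω : Type) [Field Ω] [Algebra ℂ Ω] [IsAlgClosed Ω] (i : Fin (k + 1)),
          Sep (ev Ω (ext F) i) (H i) (gg i) := by
  have hL : Algebra.trdeg ℂ L = (n + 1 : ℕ) := Pool.Agent.Y184.NT.trdeg_below (K := K) hK
  have hessL : Algebra.EssFiniteType ℂ L := Pool.Agent.TH466.QG.ess_below (K := K)
  obtain ⟨SK, hSK⟩ : ∃ SK : Fin (k + 1) → Set K, SK = Fin.snoc (α := fun _ => Set K) S
    (Set.range fun j => ω j E1) := ⟨_, rfl⟩
  have hSl : SK (Fin.last k) = Set.range fun j => ω j E1 := by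
    rw [hSK, Fin.snoc_last]
  have hSc : ∀ i : Fin k, SK i.castSucc = S i := fun i => by
    rw [hSK, Fin.snoc_castSucc]
  refine ⟨fun i => {z : ext F i | (z : K) ∈ SK i}, fun φ => ?_, ?_, ?_⟩
  · change (φ : K) ∈ SK (Fin.last k) ↔ _
    rw [hSl]
    exact ⟨fun ⟨j, hj⟩ => ⟨j, hj.symm⟩, fun ⟨j, hj⟩ => ⟨j, hj.symm⟩⟩
  · intro f hf P hP
    obtain ⟨j, hj⟩ : ∃ j, (f (Fin.last k) : K) = ω j E1 := by
      have h1 : (f (Fin.last k) : K) ∈ SK (Fin.last k) := hf (Fin.last k)
      rw [hSl] at h1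
      obtain ⟨j, hj⟩ := h1
      exact ⟨j, hj.symm⟩
    have hs : ∀ i : Fin k, (f i.castSucc : K) ∈ F i ∧ (f i.castSucc : K) ∈ S i := by
      intro i
      have h1 : (f i.castSucc : K) ∈ SK i.castSucc := hf i.castSucc
      rw [hSc] at h1
      exact ⟨(ext_cast F i).le (f i.castSucc).2, h1⟩
    obtain ⟨W, hW⟩ : ∃ W : (Fin (n + 1) → Derivation ℂ K K) → K,
      W = fun D => (∏ i : Fin k, (f i.castSucc : K)) * ω j D := ⟨_, rfl⟩
    have hWp : IsPluri 1 W := by
      intro A D
      rw [hW]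
      change (∏ i : Fin k, (f i.castSucc : K)) * ω j (fun i => ∑ j, A i j • D j) = _
      rw [hω j A D]
      ring
    have hWr : ∀ P : Place ℂ K, Divisorial (n + 1) P → SecAt (fun _ => False) P W := by
      intro P hP
      rw [hW]
      exact secAt_of (hreg _ hs j P hP)
    have h3 : 1 * ∏ i, algebraMap (ext F i) K (f i) = W E1 := by
      rw [one_mul, Fin.prod_univ_castSucc, hW]
      congr 1
    rw [h3]
    exact (trForm_sec (BL := fun _ => False) hL hy hE hE1 W hWp (fun _ _ _ _ h => h) hWr P hP).2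
      fun h => h
  · intro r hr
    obtain ⟨gg, hgg⟩ : ∃ gg : Fin (k + 1) → ℕ, gg = Fin.snoc (α := fun _ => ℕ)
      (fun i => r i + 1) 0 := ⟨_, rfl⟩
    have hggl : gg (Fin.last k) = 0 := by
      rw [hgg, Fin.snoc_last]
    have hggc : ∀ i : Fin k, gg i.castSucc = r i + 1 := fun i => by
      rw [hgg, Fin.snoc_castSucc]
    refine ⟨gg, hggc, fun Ω _ _ _ i => ?_⟩
    induction i using Fin.lastCases with
    | last =>
      intro A hA
      rw [hggl] at hA
      exact absurd hA (Nat.not_lt_zero _)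
    | cast i =>
      rw [hggc]
      exact sep_ev (hr i) (ext_cast F i) (hSc i) Ω

theorem main [hess : Algebra.EssFiniteType ℂ K] (hK : Algebra.trdeg ℂ K = (n + 1 : ℕ))
    {B : IntermediateField ℂ K} (hBF : B = ⨆ i, F i) (hB : Algebra.trdeg ℂ B = n)
    (hcl : ∀ z : K, IsAlgebraic B z → z ∈ B) [Finite J] (hω : ∀ j, IsPluri 1 (ω j))
    (hreg : ∀ s : Fin k → K, (∀ i, s i ∈ F i ∧ s i ∈ S i) → ∀ j, ∀ P : Place ℂ K,
      Divisorial (n + 1) P → RegAt P (fun D => (∏ i, s i) * ω j D)) (hspan : Gen B ω)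
    (L : Type) [Field L] [Algebra ℂ L] [Algebra L K] [IsScalarTower ℂ L K]
    [FiniteDimensional L K] :
    ((∀ i, Separates (F i) (S i) (deg F L i)) →
      [GenusZero L (n + 1), ¬ KodGe ℂ L (n + 1) (fun _ => False) 0,
        ¬ Psef ℂ L (n + 1) (fun _ => False), IsUniruled ℂ L (n + 1)].TFAE) ∧
    ((∀ i, Separates (F i) (S i) (2 * deg F L i)) →
      [Psef ℂ L (n + 1) (fun _ => False), KodGe ℂ L (n + 1) (fun _ => False) n,
        ¬ IsUniruled ℂ L (n + 1)].TFAE ∧
      [KodGe ℂ L (n + 1) (fun _ => False) (n + 1), CanGe L (n + 1) (n + 1),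
        ¬ Cov1 L n].TFAE ∧
      ∀ j : ℕ, KodGe ℂ L (n + 1) (fun _ => False) j ↔ CanGe L (n + 1) j) := by
  have hL : Algebra.trdeg ℂ L = (n + 1 : ℕ) := Pool.Agent.Y184.NT.trdeg_below (K := K) hK
  have hessL : Algebra.EssFiniteType ℂ L := Pool.Agent.TH466.QG.ess_below (K := K)
  -- the frame of `W`
  obtain ⟨y, E, hy, hE⟩ := Pool.Agent.Y172.exists_crd (k := ℂ) (K := L) hL
  choose E1 hE1 using fun i =>
    Pool.Agent.Y172.exists_lift (k := ℂ) (K := L) (L := K) hL (E i)
  have hyK : IsTranscendenceBasis ℂ (fun j => algebraMap L K (y j)) := hy.algebraMap_comp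
  have hE1d := Pool.Agent.Y172.lift_dual hE hE1
  have hθE : ∀ t, trForm y t E = t := by
    intro t
    have h1 : (Matrix.of fun i j => E i (y j) : Matrix (Fin (n + 1)) (Fin (n + 1)) L) = 1 := by
      ext i j
      rw [Matrix.of_apply, hE, Matrix.one_apply]
    rw [trForm, h1, Matrix.det_one, one_mul]
  have hBE : B = ⨆ i : Fin k, ext F i.castSucc := by
    rw [hBF]
    exact iSup_congr fun i => (ext_cast F i).symm
  obtain ⟨H, hHl, hTreg, hSep⟩ := setup (L := L) hK hBF hω hreg hy hE hE1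
  -- the image in the product with `V'`
  obtain ⟨M, hM⟩ : ∃ M : IntermediateField L K, M = IntermediateField.adjoin L (B : Set K) :=
    ⟨_, rfl⟩
  have hle : B ≤ M.restrictScalars ℂ := by
    rw [hM]
    exact IntermediateField.subset_adjoin L (B : Set K)
  obtain ⟨E', hE'⟩ : ∃ E' : IntermediateField B K, E' = IntermediateField.extendScalars hle :=
    ⟨_, rfl⟩
  have hE'r : E'.restrictScalars ℂ = M.restrictScalars ℂ := by
    rw [hE']
    exact IntermediateField.extendScalars_restrictScalars hle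
  have hfinE : FiniteDimensional E' K := by
    have h1 : FiniteDimensional M K := inferInstance
    rw [hE']
    exact h1
  let φ : L →ₐ[ℂ] (M.restrictScalars ℂ : IntermediateField ℂ K) :=
    { toFun := fun g => ⟨algebraMap L K g, M.algebraMap_mem g⟩
      map_one' := Subtype.ext (map_one _)
      map_mul' := fun a b => Subtype.ext (map_mul _ _ _)
      map_zero' := Subtype.ext (map_zero _)
      map_add' := fun a b => Subtype.ext (map_add _ _ _)
      commutes' := fun c => Subtype.ext (IsScalarTower.algebraMap_apply ℂ L K c).symm }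
  have hneg : IsUniruled ℂ L (n + 1) → ¬ Psef ℂ L (n + 1) (fun _ => False) := fun h h' =>
    (Pool.Agent.W619.Y.uniruled_neg (n + 1) hL h).1 ((Pool.Agent.TH466.QG.psef_iff (n + 1)).1 h')
  -- the dichotomy
  have huni : (∀ i, Separates (F i) (S i) (deg F L i)) → ¬ IsUniruled ℂ L (n + 1) →
      ∃ j, Algebra.trace M K (ω j E1) ≠ 0 := by
    intro hs hnu
    choose s0 hs0S hs0F hs0 using fun i => exists_sec (hs i) (deg_pos (L := L) F i)
    obtain ⟨s, hsd⟩ : ∃ s, s = ∏ i, s0 i := ⟨_, rfl⟩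
    have hsB : s ∈ B := by
      rw [hsd, hBF]
      exact prod_mem fun i _ => le_iSup F i (hs0F i)
    have hsne : s ≠ 0 := by
      rw [hsd]
      exact Finset.prod_ne_zero_iff.2 fun i _ => hs0 i
    have hω' : ∀ j, IsPluri 1 (fun D => s * ω j D) := by
      intro j A D
      change s * ω j (fun i => ∑ j, A i j • D j) = _
      rw [hω j A D]
      ring
    by_contra hcon
    push Not at hcon
    apply hnu
    have h1 := dich_gen hK _ hB hcl E' (fun j D => s * ω j D) hω'
      (fun j P hP => by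
        rw [hsd]
        exact hreg s0 (fun i => ⟨hs0F i, hs0S i⟩) j P hP)
      (gen_smul hspan hsB hsne) (fun j htn => by
        rw [hE'r] at htn
        have h2 := trace_ne_frame (L := L) hy hE hE1 (hω' j) htn
        apply h2
        have h3 : s * ω j E1 = (⟨s, hle hsB⟩ : M) • ω j E1 := rfl
        rw [h3, map_smul, hcon j, smul_zero])
    rw [hE'r] at h1
    obtain ⟨C, i1, i2, hC, htr, ⟨ψ⟩⟩ := h1
    exact ⟨C, i1, i2, hC, htr, ⟨ψ.comp φ⟩⟩
  have hφ0 : ∀ j, ∃ φ0 : ext F (Fin.last k), φ0 ∈ H (Fin.last k) ∧ (φ0 : K) = ω j E1 := by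
    intro j
    have h1 : ω j E1 ∈ ext F (Fin.last k) := by
      rw [ext_last]
      trivial
    exact ⟨⟨ω j E1, h1⟩, (hHl _).2 ⟨j, rfl⟩, rfl⟩
  refine ⟨fun hs => ?_, fun hs => ?_⟩
  · tfae_have 1 → 4 := by
      intro hg
      by_contra hnu
      obtain ⟨j, hj⟩ := huni hs hnu
      obtain ⟨φ0, hφ0, hφj⟩ := hφ0 j
      obtain ⟨gg, hgg, hSepΩ⟩ := hSep _ hs
      rw [hM] at hj
      obtain ⟨f, hf, hne⟩ := exists_trace_ne (L := L) (h := 1) hBE hSepΩ (fun i => by
        rw [deg_ext, hgg]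
        exact Nat.lt_succ_self _) hφ0 (by rw [one_mul, hφj]; exact hj)
      have h2 := hg (trForm y _) (trForm_pluri y _) (fun P hP => hTreg f hf P hP) E
      rw [hθE] at h2
      exact hne h2
    tfae_have 4 → 3 := hneg
    tfae_have 3 → 2 := fun h h' => h (Pool.Agent.W602.GT.psef_of_kodGe h')
    tfae_have 2 → 1 := by
      intro h ω hω hreg D
      by_contra hne
      refine h ⟨1, one_pos, fun _ => ω, fun _ => ⟨hω, fun P hP D' hD' => ?_,
        fun P hP _ => hreg P hP⟩, D, hne, ?_⟩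
      · exact hreg P hP D' fun i => Pool.Agent.TH466.QG.derReg_of_log (hD' i)
      · exact algebraicIndependent_empty_type
    tfae_finish
  · obtain ⟨gg, hgg, hSepΩ⟩ := hSep _ hs
    have hdd : ∀ i : Fin k, 2 * finrank (MF (ext F) L (Js (k + 1) i))
        (IntermediateField.adjoin (MF (ext F) L (Js (k + 1) i)) (ext F i.castSucc : Set K)) <
        gg i.castSucc := fun i => by
      rw [deg_ext, hgg]
      exact Nat.lt_succ_self _
    have hcore : ∀ j, Algebra.trace M K (ω j E1) ≠ 0 → CanGe L (n + 1) n ∧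
        (CanGe L (n + 1) (n + 1) ∨ ∀ j', ∃ c ∈ B, ((Algebra.trace M K (ω j' E1) : M) : K) =
          c * ((Algebra.trace M K (ω j E1) : M) : K)) := by
      intro j hj
      obtain ⟨φ0, hφ0H, hφj⟩ := hφ0 j
      subst hM
      obtain ⟨h1, h2⟩ := core (L := L) (h := 1) hK hBE hB hcl hSepΩ hdd hφ0H
        (by rw [one_mul, hφj]; exact hj) hE hTreg
      refine ⟨h1, h2.imp_right fun h3 j' => ?_⟩
      obtain ⟨φ', hφ'H, hφ'j⟩ := hφ0 j'
      obtain ⟨c, hc, h4⟩ := h3 φ' hφ'H
      refine ⟨c, hc, ?_⟩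
      rw [one_mul, one_mul, hφj, hφ'j] at h4
      exact h4
    have hs1 : ∀ i, Separates (F i) (S i) (deg F L i) := fun i => (hs i).mono (by omega)
    have hdich : ¬ IsUniruled ℂ L (n + 1) → CanGe L (n + 1) n := by
      intro hnu
      obtain ⟨j, hj⟩ := huni hs1 hnu
      exact (hcore j hj).1
    -- coverings by curves of genus at most one
    have hcov : ¬ CanGe L (n + 1) (n + 1) → Cov1 L n := by
      intro hcan
      have hline : ∃ S1 : K, ∀ j, ∃ c ∈ B, ((Algebra.trace M K (ω j E1) : M) : K) = c * S1 := by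
        by_cases h0 : ∃ j0, Algebra.trace M K (ω j0 E1) ≠ 0
        · obtain ⟨j0, h0⟩ := h0
          exact ⟨_, (hcore j0 h0).2.resolve_left hcan⟩
        · push Not at h0
          exact ⟨0, fun j => ⟨0, zero_mem _, by rw [h0, mul_zero]; rfl⟩⟩
      obtain ⟨S1, hS1⟩ := hline
      have hline' : ∀ j, ∃ c ∈ B, ((Algebra.trace E' K (ω j E1) : E') : K) = c * S1 := by
        intro j
        obtain ⟨c, hc, h⟩ := hS1 j
        refine ⟨c, hc, ?_⟩
        rw [← h]
        subst hE'
        rfl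
      have hLE : ∀ z : L, algebraMap L K z ∈ E' := by
        intro z
        have h1 : algebraMap L K z ∈ E'.restrictScalars ℂ := by
          rw [hE'r]
          exact M.algebraMap_mem z
        exact h1
      obtain ⟨Λ, F', i1, i2, i3, i4, i5, i6, i7, i8, hΛ, hglo, ⟨ψ⟩⟩ :=
        cov_of_line hK _ hB hcl E' ω hspan fun D0 Ef hEf => by
          obtain ⟨δ, hδ⟩ : ∃ δ : E', (δ : K) =
              (Matrix.of fun i j => Ef i (algebraMap L K (y j))).det := by
            obtain ⟨A, hA⟩ : ∃ A : Matrix (Fin (n + 1)) (Fin (n + 1)) E',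
                ∀ i j, (A i j : K) = Ef i (algebraMap L K (y j)) :=
              ⟨fun i j => ⟨Ef i (algebraMap L K (y j)), by
                have h1 := hEf i ⟨algebraMap L K (y j), hLE (y j)⟩
                change Ef i (algebraMap L K (y j)) = _ at h1
                rw [h1]
                exact (D0 i ⟨algebraMap L K (y j), hLE (y j)⟩).2⟩, fun _ _ => rfl⟩
            refine ⟨A.det, ?_⟩
            change algebraMap E' K A.det = _
            rw [RingHom.map_det]
            congr 1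
            ext i j
            exact hA i j
          refine ⟨(δ : K) * S1, fun j => ?_⟩
          obtain ⟨c, hc, h⟩ := hline' j
          refine ⟨c, hc, ?_⟩
          have h2 : ω j Ef = δ • ω j E1 := by
            rw [Pool.Agent.Y172.pluri_coord hyK hE1d (hω j) Ef, pow_one, Algebra.smul_def]
            change _ = (δ : K) * _
            rw [hδ]
          rw [h2, map_smul, smul_eq_mul]
          change (δ : K) * ((Algebra.trace E' K (ω j E1) : E') : K) = _
          rw [h]
          ring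
      refine ⟨Λ, F', i1, i2, i3, i4, i5, i6, i7, i8, hΛ, hglo, ⟨?_⟩⟩
      rw [hE'r] at ψ
      exact ψ.comp φ
    have htfae : [KodGe ℂ L (n + 1) (fun _ => False) (n + 1), CanGe L (n + 1) (n + 1),
        ¬ Cov1 L n].TFAE := by
      tfae_have 1 → 3 := fun h hc => Pool.Agent.N145.SX.not_gt_of_cov1 hL hc h
      tfae_have 3 → 2 := fun h => by
        by_contra hcan
        exact h (hcov hcan)
      tfae_have 2 → 1 := Pool.Agent.N145.SX.kodGe_of_canGe
      tfae_finish
    refine ⟨?_, htfae, ?_⟩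
    · tfae_have 1 → 3 := fun h h' => hneg h' h
      tfae_have 3 → 2 := fun h => Pool.Agent.N145.SX.kodGe_of_canGe (hdich h)
      tfae_have 2 → 1 := Pool.Agent.N145.PL.psef_of_kodGe'
      tfae_finish
    · intro j
      refine ⟨fun h => ?_, Pool.Agent.N145.SX.kodGe_of_canGe⟩
      have h1 : CanGe L (n + 1) n := hdich fun h' => hneg h' (Pool.Agent.N145.PL.psef_of_kodGe' h)
      rcases lt_trichotomy j (n + 1) with hj | hj | hj
      · exact Pool.Agent.N145.SX.canGe_mono (by omega) h1
      · subst hj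
        exact (htfae.out 0 1).1 h
      · exfalso
        obtain ⟨w, hw, ω, hω, D, hD, hind⟩ := h
        have h2 := hind.lift_cardinalMk_le_trdeg
        rw [hL] at h2
        simp only [Cardinal.mk_fin, Cardinal.lift_natCast] at h2
        have h3 : j ≤ n + 1 := by exact_mod_cast h2
        omega

end

end Pool.Agent.J4.H18.MS
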