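import Pool.Agent.N145.SX.MLang

/-!
Traces of forms which are twisted by several maps: the dimension of the canonical image, and the
traces on the image in the product with the base. The proof is that of
`Pool.Agent.N145.SX.multi_lang`, without the product structure.
-/

set_option autoImplicit false
set_option linter.overlappingInstances false
set_option linter.unusedSectionVars false
set_option linter.unusedVariables false
set_option maxHeartbeats 4000000
set_option synthInstance.maxHeartbeats 400000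

open Polynomial FF IntermediateField Module

namespace Pool.Agent.J4.H18.MS

open Pool.Agent.W603.LV Pool.Agent.W619.PQ Pool.Agent.N145.PC Pool.Agent.N145.PL
open Pool.Agent.N145.SX
open Pool.Agent.W602.GT (Divisorial RegAt IsPluri DerReg DerLog LogAt KodGe LogSec Psef)
open Pool.Agent.Y184.NT (trForm trForm_pluri)

open scoped Classical

section

variable {K : Type} [Field K] [Algebra ℂ K] {k : ℕ} {F : Fin (k + 1) → IntermediateField ℂ K}
  {L : Type} [Field L] [Algebra ℂ L] [Algebra L K] [IsScalarTower ℂ L K] [FiniteDimensional L K]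
  {E : IntermediateField ℂ K} {H : ∀ i, Set (F i)} {gg : Fin (k + 1) → ℕ}

theorem not_all_erase (hE : E = ⨆ i : Fin k, F i.castSucc) {h : K} {φ0 : F (Fin.last k)}
    (hφ0 : φ0 ∈ H (Fin.last k))
    (hS0 : Algebra.trace (IntermediateField.adjoin L (E : Set K)) K (h * (φ0 : K)) ≠ 0) :
    ¬ (∀ f : ∀ i, F i, f (Fin.last k) ∈ H (Fin.last k) →
      Algebra.trace (MF F L (Finset.univ.erase (Fin.last k))) K
        (h * ∏ i, algebraMap (F i) K (f i)) = 0) := by
  intro h0
  have h1 := h0 (Fin.lastCases (motive := fun i => F i) φ0 (fun _ => 1)) (by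
    rw [Fin.lastCases_last]
    exact hφ0)
  rw [Fin.prod_univ_castSucc, Fin.lastCases_last] at h1
  simp only [Fin.lastCases_castSucc, map_one, Finset.prod_const_one, one_mul] at h1
  rw [MF_erase hE] at h1
  exact hS0 h1

/-- **One fibre.** -/
theorem exists_trace_ne (hE : E = ⨆ i : Fin k, F i.castSucc)
    (hS : ∀ (Ω : Type) [Field Ω] [Algebra ℂ Ω] [IsAlgClosed Ω] (i : Fin (k + 1)),
      Sep (ev Ω F i) (H i) (gg i))
    (hd : ∀ i : Fin k, finrank (MF F L (Js (k + 1) i)) (IntermediateField.adjoin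
      (MF F L (Js (k + 1) i)) (F i.castSucc : Set K)) < gg i.castSucc) {h : K}
    {φ0 : F (Fin.last k)} (hφ0 : φ0 ∈ H (Fin.last k))
    (hS0 : Algebra.trace (IntermediateField.adjoin L (E : Set K)) K (h * (φ0 : K)) ≠ 0) :
    ∃ f : ∀ i, F i, (∀ i, f i ∈ H i) ∧
      Algebra.trace L K (h * ∏ i, algebraMap (F i) K (f i)) ≠ 0 := by
  by_contra hcon
  push Not at hcon
  obtain ⟨τ0⟩ : Nonempty (K →ₐ[L] AlgebraicClosure L) :=
    ⟨IsAlgClosed.lift (R := L) (M := AlgebraicClosure L) (S := K)⟩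
  have hT' : IsScalarTower ℂ L (AlgebraicClosure L) := inferInstance
  have h0 := Ch.rel_zero (F := F) (H := H) (h := h) hcon τ0
  have h1 := Rl.chain h0 (hS (AlgebraicClosure L)) (s := k) (fun l hl => by
    obtain ⟨i, rfl⟩ : ∃ i : Fin k, i.castSucc = l := ⟨⟨l.val, hl⟩, rfl⟩
    exact lt_of_le_of_lt (Ch.count_le τ0 _ _) (hd i))
  rw [erase_last] at h1
  exact not_all_erase hE hφ0 hS0 fun f hf => Ch.rel_erase h1 f hf

/-- **Two fibres.** The functions of the base are algebraic over the ratios of the traces, and the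
ratios of the traces on the image in the product with the base too. -/
theorem alg_ratios (hE : E = ⨆ i : Fin k, F i.castSucc)
    (hS : ∀ (Ω : Type) [Field Ω] [Algebra ℂ Ω] [IsAlgClosed Ω] (i : Fin (k + 1)),
      Sep (ev Ω F i) (H i) (gg i))
    (hd : ∀ i : Fin k, 2 * finrank (MF F L (Js (k + 1) i)) (IntermediateField.adjoin
      (MF F L (Js (k + 1) i)) (F i.castSucc : Set K)) < gg i.castSucc) {h : K}
    {φ0 : F (Fin.last k)} (hφ0 : φ0 ∈ H (Fin.last k))
    (hS0 : Algebra.trace (IntermediateField.adjoin L (E : Set K)) K (h * (φ0 : K)) ≠ 0)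
    {T : {f : ∀ i, F i // ∀ i, f i ∈ H i} → L} (hT : ∀ f, T f =
      Algebra.trace L K (h * ∏ i, algebraMap (F i) K (f.1 i))) :
    (∃ f, T f ≠ 0) ∧ (∀ z : E, IsAlgebraic (Rt T) (z : K)) ∧
    ∀ φ ∈ H (Fin.last k), IsAlgebraic (Rt T)
      (((Algebra.trace (IntermediateField.adjoin L (E : Set K)) K (h * (φ : K)) :
        IntermediateField.adjoin L (E : Set K)) : K) /
      ((Algebra.trace (IntermediateField.adjoin L (E : Set K)) K (h * (φ0 : K)) :
        IntermediateField.adjoin L (E : Set K)) : K)) := by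
  obtain ⟨τ0⟩ : Nonempty (K →ₐ[L] AlgebraicClosure L) :=
    ⟨IsAlgClosed.lift (R := L) (M := AlgebraicClosure L) (S := K)⟩
  have hT' : IsScalarTower ℂ L (AlgebraicClosure L) := inferInstance
  have hno := not_all_erase (L := L) hE hφ0 hS0
  obtain ⟨f1, hf1⟩ : ∃ f, T f ≠ 0 := by
    obtain ⟨f, hf, hne⟩ := exists_trace_ne (L := L) hE hS (fun i => lt_of_le_of_lt
      (Nat.le_mul_of_pos_left _ two_pos) (hd i)) hφ0 hS0
    exact ⟨⟨f, hf⟩, by rwa [hT]⟩
  obtain ⟨Ω', iF, iA, iC, i1, i2, lam, hlam, hlamT, hpts⟩ := exists_pts T (f1 := f1) hf1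
  have h0 : Rl (P2 i1 i2 F L) (ev Ω' F) H (C2 i1 i2 h lam) (Sum.inl τ0) ∅ :=
    Ch.rel2_zero i1 i2 (fun f hf => by
      have := hlamT ⟨f, hf⟩
      rw [hT] at this
      exact this) _
  have h1 := Rl.chain h0 (hS Ω') (s := k) (fun l hl => by
    obtain ⟨i, rfl⟩ : ∃ i : Fin k, i.castSucc = l := ⟨⟨l.val, hl⟩, rfl⟩
    exact lt_of_le_of_lt (Ch.count2_le i1 i2 τ0 _ _) (hd i))
  rw [erase_last] at h1
  obtain ⟨τ, hτ⟩ := (Ch.rel2_erase i1 i2 hlam h1).resolve_right hno
  refine ⟨⟨f1, hf1⟩, ?_, ?_⟩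
  · have h2 : E ≤ (algebraicClosure (Rt T) K).restrictScalars ℂ := by
      rw [hE]
      refine iSup_le fun i v hv => ?_
      rw [mem_restrictScalars, mem_algebraicClosure_iff]
      exact alg_back τ0 (hpts _ _ (hτ i.castSucc (Fin.castSucc_ne_last _) ⟨v, hv⟩).symm)
    intro z
    have h3 := h2 z.2
    rwa [mem_restrictScalars, mem_algebraicClosure_iff] at h3
  · intro φ hφ
    have hr : ∀ ψ ∈ H (Fin.last k),
        i2 (τ ((Algebra.trace (IntermediateField.adjoin L (E : Set K)) K (h * (ψ : K)) :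
          IntermediateField.adjoin L (E : Set K)) : K)) =
        lam * i1 (τ0 ((Algebra.trace (IntermediateField.adjoin L (E : Set K)) K (h * (ψ : K)) :
          IntermediateField.adjoin L (E : Set K)) : K)) := by
      intro ψ hψ
      rw [← MF_erase hE]
      exact rel2_both i1 i2 hτ h1 hψ
    have h1 := hr φ hφ
    have h2 := hr φ0 hφ0
    refine alg_back τ0 (hpts _ (τ (((Algebra.trace (IntermediateField.adjoin L (E : Set K)) K
      (h * (φ : K)) : IntermediateField.adjoin L (E : Set K)) : K) /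
      ((Algebra.trace (IntermediateField.adjoin L (E : Set K)) K (h * (φ0 : K)) :
        IntermediateField.adjoin L (E : Set K)) : K))) ?_)
    rw [map_div₀, map_div₀, map_div₀, map_div₀, h1, h2, mul_div_mul_left _ _ hlam]

/-- **The canonical map and the base.** -/
theorem core [Algebra.EssFiniteType ℂ K] {n : ℕ} (hK : Algebra.trdeg ℂ K = (n + 1 : ℕ))
    (hE : E = ⨆ i : Fin k, F i.castSucc) (hEtr : Algebra.trdeg ℂ E = n)
    (hcl : ∀ z : K, IsAlgebraic E z → z ∈ E)
    (hS : ∀ (Ω : Type) [Field Ω] [Algebra ℂ Ω] [IsAlgClosed Ω] (i : Fin (k + 1)),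
      Sep (ev Ω F i) (H i) (gg i))
    (hd : ∀ i : Fin k, 2 * finrank (MF F L (Js (k + 1) i)) (IntermediateField.adjoin
      (MF F L (Js (k + 1) i)) (F i.castSucc : Set K)) < gg i.castSucc) {h : K}
    {φ0 : F (Fin.last k)} (hφ0 : φ0 ∈ H (Fin.last k))
    (hS0 : Algebra.trace (IntermediateField.adjoin L (E : Set K)) K (h * (φ0 : K)) ≠ 0)
    {y : Fin (n + 1) → L} {G : Fin (n + 1) → Derivation ℂ L L}
    (hG : ∀ i j, G i (y j) = if i = j then 1 else 0)
    (hreg : ∀ f : ∀ i, F i, (∀ i, f i ∈ H i) → ∀ P : Place ℂ L, Divisorial (n + 1) P →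
      RegAt P (trForm y (Algebra.trace L K (h * ∏ i, algebraMap (F i) K (f i))))) :
    CanGe L (n + 1) n ∧ (CanGe L (n + 1) (n + 1) ∨ ∀ φ ∈ H (Fin.last k), ∃ c ∈ E,
      ((Algebra.trace (IntermediateField.adjoin L (E : Set K)) K (h * (φ : K)) :
        IntermediateField.adjoin L (E : Set K)) : K) = c *
      ((Algebra.trace (IntermediateField.adjoin L (E : Set K)) K (h * (φ0 : K)) :
        IntermediateField.adjoin L (E : Set K)) : K)) := by
  have hL : Algebra.trdeg ℂ L = (n + 1 : ℕ) := Pool.Agent.Y184.NT.trdeg_below (K := K) hK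
  have hessL : Algebra.EssFiniteType ℂ L := Pool.Agent.TH466.QG.ess_below (K := K)
  obtain ⟨T, hT⟩ : ∃ T : {f : ∀ i, F i // ∀ i, f i ∈ H i} → L, ∀ f, T f =
    Algebra.trace L K (h * ∏ i, algebraMap (F i) K (f.1 i)) := ⟨_, fun _ => rfl⟩
  obtain ⟨hT0, hEalg, hrat⟩ := alg_ratios (L := L) hE hS hd hφ0 hS0 hT
  have hTreg : ∀ f, ∀ P : Place ℂ L, Divisorial (n + 1) P → RegAt P (trForm y (T f)) := by
    intro f P hP
    rw [hT]
    exact hreg f.1 f.2 P hP
  obtain ⟨z, -, hz, -⟩ := Pool.Agent.Y944.NT.exists_crd (k := ℂ) (K := E) hEtr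
  have hzK : AlgebraicIndependent ℂ (fun l => (z l : K)) :=
    hz.1.map' (f := E.val) E.val.injective
  refine ⟨canGe_of_alg hL hG T hT0 hTreg (trdeg_adj hzK) fun j => hEalg _, ?_⟩
  have hgen : ∀ u : K, ¬ IsAlgebraic E u → IsAlgebraic (Rt T) u → CanGe L (n + 1) (n + 1) := by
    intro u hu hu'
    refine canGe_of_alg hL hG T hT0 hTreg (trdeg_adj (indep_snoc hz hu)) fun j => ?_
    induction j using Fin.lastCases with
    | last =>
      rw [Fin.snoc_last]
      exact hu'
    | cast i =>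
      rw [Fin.snoc_castSucc]
      exact hEalg _
  by_cases hex : ∃ u : K, ¬ IsAlgebraic E u ∧ IsAlgebraic (Rt T) u
  · obtain ⟨u, hu, hu'⟩ := hex
    exact Or.inl (hgen u hu hu')
  push Not at hex
  have hall : ∀ u : K, IsAlgebraic (Rt T) u → u ∈ E := fun u hu => by
    by_contra hcon
    exact hex u (fun h => hcon (hcl u h)) hu
  right
  intro φ hφ
  refine ⟨_, hall _ (hrat φ hφ), ?_⟩
  rw [div_mul_cancel₀]
  intro h0
  exact hS0 (Subtype.ext h0)

end

end Pool.Agent.J4.H18.MS
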