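import Pool.Agent.J4.H18.MS.Prep

/-!
The polynomials of degree at most `M` in generators of the function field separate `M + 1` points.
-/

set_option autoImplicit false
set_option linter.overlappingInstances false
set_option linter.unusedSectionVars false
set_option linter.unusedVariables false

open IntermediateField Module

namespace Pool.Agent.J4.H18.MS

open scoped Classical

variable {K : Type} [Field K] [Algebra ℂ K]

/-- embeddings which agree on the generators agree -/
theorem ext_gen {N : ℕ} {t : Fin N → K} {Ω : Type} [Field Ω] [Algebra ℂ Ω]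
    {σ τ : IntermediateField.adjoin ℂ (Set.range t) →ₐ[ℂ] Ω}
    (h : ∀ j, σ ⟨t j, IntermediateField.subset_adjoin ℂ _ ⟨j, rfl⟩⟩ =
      τ ⟨t j, IntermediateField.subset_adjoin ℂ _ ⟨j, rfl⟩⟩) : σ = τ := by
  refine AlgHom.ext fun x => ?_
  obtain ⟨x, hx⟩ := x
  induction hx using IntermediateField.adjoin_induction with
  | mem x hx =>
    obtain ⟨j, rfl⟩ := hx
    exact h j
  | algebraMap c =>
    have h1 := σ.commutes c
    have h2 := τ.commutes c
    exact h1.trans h2.symm
  | add x y hx hy h1 h2 =>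
    have h3 : (⟨x + y, add_mem hx hy⟩ : IntermediateField.adjoin ℂ (Set.range t)) =
      ⟨x, hx⟩ + ⟨y, hy⟩ := rfl
    rw [h3, map_add, map_add, h1, h2]
  | inv x hx h1 =>
    have h3 : (⟨x⁻¹, inv_mem hx⟩ : IntermediateField.adjoin ℂ (Set.range t)) = ⟨x, hx⟩⁻¹ := rfl
    rw [h3, map_inv₀, map_inv₀, h1]
  | mul x y hx hy h1 h2 =>
    have h3 : (⟨x * y, mul_mem hx hy⟩ : IntermediateField.adjoin ℂ (Set.range t)) =
      ⟨x, hx⟩ * ⟨y, hy⟩ := rfl
    rw [h3, map_mul, map_mul, h1, h2]

/-- **Interpolation.** The monomials of degree at most `M` in the generators `t j` of a field separate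
`M + 1` points. -/
theorem separates_monomials {N : ℕ} (t : Fin N → K) (M : ℕ) :
    Separates (IntermediateField.adjoin ℂ (Set.range t))
      {z | ∃ a : Fin N → ℕ, ∑ j, a j ≤ M ∧ z = ∏ j, t j ^ a j} (M + 1) := by
  intro Ω _ _ _ A hA c hc σ0 hσ0
  obtain ⟨tE, htE⟩ : ∃ tE : Fin N → IntermediateField.adjoin ℂ (Set.range t),
    tE = fun j => ⟨t j, IntermediateField.subset_adjoin ℂ _ ⟨j, rfl⟩⟩ := ⟨_, rfl⟩
  have htEK : ∀ j, (tE j : K) = t j := fun j => by rw [htE]
  have hsep : ∀ σ : IntermediateField.adjoin ℂ (Set.range t) →ₐ[ℂ] Ω, ∃ p : MvPolynomial (Fin N) Ω,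
      p.totalDegree ≤ 1 ∧ MvPolynomial.eval (fun j => σ (tE j)) p = 0 ∧
      (σ ≠ σ0 → MvPolynomial.eval (fun j => σ0 (tE j)) p ≠ 0) := by
    intro σ
    by_cases h : σ = σ0
    · exact ⟨0, by simp, by simp, fun h' => absurd h h'⟩
    · obtain ⟨j, hj⟩ : ∃ j, σ (tE j) ≠ σ0 (tE j) := by
        by_contra hcon
        push Not at hcon
        apply h
        apply ext_gen
        intro j
        have := hcon j
        rw [htE] at this
        exact this
      refine ⟨MvPolynomial.X j - MvPolynomial.C (σ (tE j)), ?_, by simp, fun _ => ?_⟩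
      · refine (MvPolynomial.totalDegree_sub_C_le _ _).trans ?_
        exact (MvPolynomial.totalDegree_X j).le
      · rw [map_sub, MvPolynomial.eval_X, MvPolynomial.eval_C, sub_ne_zero]
        exact fun h' => hj h'.symm
  choose p hp1 hp2 hp3 using hsep
  obtain ⟨P, hP⟩ : ∃ P : MvPolynomial (Fin N) Ω, P = ∏ σ ∈ A.erase σ0, p σ := ⟨_, rfl⟩
  have hdeg : P.totalDegree ≤ M := by
    rw [hP]
    refine (MvPolynomial.totalDegree_finsetProd _ _).trans ?_
    refine (Finset.sum_le_card_nsmul _ _ 1 fun σ _ => hp1 σ).trans ?_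
    rw [smul_eq_mul, mul_one, Finset.card_erase_of_mem hσ0]
    omega
  have hzero : ∑ σ ∈ A, c σ * MvPolynomial.eval (fun j => σ (tE j)) P = 0 := by
    simp only [MvPolynomial.eval_eq', Finset.mul_sum]
    rw [Finset.sum_comm]
    refine Finset.sum_eq_zero fun d hd => ?_
    have h1 := hc (∏ j, tE j ^ d j) ⟨fun j => d j, ?_, ?_⟩
    · calc ∑ σ ∈ A, c σ * (MvPolynomial.coeff d P * ∏ j, σ (tE j) ^ d j) =
          MvPolynomial.coeff d P * ∑ σ ∈ A, c σ * σ (∏ j, tE j ^ d j) := by
            rw [Finset.mul_sum]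
            refine Finset.sum_congr rfl fun σ _ => ?_
            rw [map_prod]
            simp only [map_pow]
            ring
        _ = 0 := by rw [h1, mul_zero]
    · have h2 := MvPolynomial.le_totalDegree hd
      rw [Finsupp.sum_fintype _ _ (fun _ => rfl)] at h2
      exact h2.trans hdeg
    · have h2 : ((∏ j, tE j ^ d j : IntermediateField.adjoin ℂ (Set.range t)) : K) =
          ∏ j, (tE j : K) ^ d j := by
        have := map_prod (IntermediateField.adjoin ℂ (Set.range t)).val (fun j => tE j ^ d j)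
          Finset.univ
        refine this.trans ?_
        refine Finset.prod_congr rfl fun j _ => ?_
        exact map_pow _ _ _
      rw [h2]
      exact Finset.prod_congr rfl fun j _ => by rw [htEK]
  have hval : ∀ σ ∈ A, σ ≠ σ0 → MvPolynomial.eval (fun j => σ (tE j)) P = 0 := by
    intro σ hσ hne
    rw [hP, map_prod]
    exact Finset.prod_eq_zero (Finset.mem_erase.2 ⟨hne, hσ⟩) (hp2 σ)
  rw [Finset.sum_eq_single_of_mem σ0 hσ0 (fun σ hσ hne => by rw [hval σ hσ hne, mul_zero])]
    at hzero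
  refine (mul_eq_zero.1 hzero).resolve_right ?_
  rw [hP, map_prod]
  exact Finset.prod_ne_zero_iff.2 fun σ hσ => hp3 σ (Finset.mem_erase.1 hσ).1

end Pool.Agent.J4.H18.MS
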