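import Pool.Agent.J4.H18.MS.Core
import Pool.Agent.N145.SX.MFin
import Pool.Agent.J4.H19.FC.Main

/-!
Forms which are twisted by several maps: preparations.
-/

set_option autoImplicit false
set_option linter.overlappingInstances false
set_option linter.unusedSectionVars false
set_option linter.unusedVariables false
set_option maxHeartbeats 4000000
set_option synthInstance.maxHeartbeats 400000

open Polynomial FF IntermediateField Module

namespace Pool.Agent.J4.H18.MS

open Pool.Agent.W603.LV Pool.Agent.W619.PQ Pool.Agent.N145.PC Pool.Agent.N145.PL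
open Pool.Agent.N145.SX
open Pool.Agent.W602.GT (Divisorial RegAt IsPluri DerReg DerLog LogAt KodGe LogSec Psef)
open Pool.Agent.Y184.NT (trForm trForm_pluri)
open Pool.Agent.R882.LT (TraceNe SecAt secAt_of trForm_sec)
open Pool.Agent.J4.H19.FC (Gen GF toGF GenusZero)

open scoped Classical

section

variable {K : Type} [Field K] [Algebra ℂ K] {k : ℕ}

/-- The functions in `S` separate `r` general points of the variety with the function field `E`: the
embeddings `σ : E → Ω` are the generic points with coordinates in the field `Ω`, and at most `r`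
different such points impose independent conditions on the linear combinations of the elements
of `S`. -/
def Separates (E : IntermediateField ℂ K) (S : Set K) (r : ℕ) : Prop :=
  ∀ (Ω : Type) [Field Ω] [Algebra ℂ Ω] [IsAlgClosed Ω] (A : Finset (E →ₐ[ℂ] Ω)), A.card ≤ r →
    ∀ c : (E →ₐ[ℂ] Ω) → Ω, (∀ s : E, (s : K) ∈ S → ∑ σ ∈ A, c σ * σ s = 0) → ∀ σ ∈ A, c σ = 0

theorem Separates.mono {E : IntermediateField ℂ K} {S : Set K} {r r' : ℕ} (h : Separates E S r)
    (hr : r' ≤ r) : Separates E S r' :=
  fun Ω _ _ _ A hA => h Ω A (hA.trans hr)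

/-- The function field of the image `W_i` of `V` in the product of `W` and the first `i` varieties. -/
noncomputable def Img (F : Fin k → IntermediateField ℂ K) (L : Type) [Field L] [Algebra L K]
    (i : ℕ) : IntermediateField L K :=
  IntermediateField.adjoin L {z | ∃ l : Fin k, l.val < i ∧ z ∈ F l}

/-- The degree over `W_i` of the image of `V` in the product of `W_i` and the `i`-th variety. -/
noncomputable def deg (F : Fin k → IntermediateField ℂ K) (L : Type) [Field L] [Algebra L K]
    (i : Fin k) : ℕ :=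
  finrank (Img F L i) (IntermediateField.adjoin (Img F L i) (F i : Set K))

/-- the subfields, and the whole field -/
noncomputable def ext (F : Fin k → IntermediateField ℂ K) : Fin (k + 1) → IntermediateField ℂ K :=
  Fin.snoc (α := fun _ => IntermediateField ℂ K) F ⊤

theorem ext_cast (F : Fin k → IntermediateField ℂ K) (i : Fin k) : ext F i.castSucc = F i :=
  Fin.snoc_castSucc (α := fun _ => IntermediateField ℂ K) ⊤ F i

theorem ext_last (F : Fin k → IntermediateField ℂ K) : ext F (Fin.last k) = ⊤ :=
  Fin.snoc_last (α := fun _ => IntermediateField ℂ K) ⊤ F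

theorem deg_ext (F : Fin k → IntermediateField ℂ K) (L : Type) [Field L] [Algebra ℂ L]
    [Algebra L K] [IsScalarTower ℂ L K] [FiniteDimensional L K] (i : Fin k) :
    finrank (MF (ext F) L (Js (k + 1) i)) (IntermediateField.adjoin
      (MF (ext F) L (Js (k + 1) i)) (ext F i.castSucc : Set K)) = deg F L i := by
  have h1 : MF (ext F) L (Js (k + 1) i) = Img F L i := by
    rw [mf_eq]
    unfold Img
    congr 1
    ext z
    constructor
    · rintro ⟨l, hl, hz⟩
      have hlk : l.val < k := hl.trans i.2
      refine ⟨⟨l.val, hlk⟩, hl, ?_⟩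
      have h2 : l = (⟨l.val, hlk⟩ : Fin k).castSucc := Fin.ext rfl
      rw [h2, ext_cast] at hz
      exact hz
    · rintro ⟨l, hl, hz⟩
      refine ⟨l.castSucc, hl, ?_⟩
      rw [ext_cast]
      exact hz
  rw [h1, ext_cast]
  rfl

theorem sep_ev {n : ℕ} {F : Fin n → IntermediateField ℂ K} {i : Fin n}
    {E : IntermediateField ℂ K} {S S' : Set K} {r : ℕ} (hs : Separates E S r) (h : F i = E)
    (hS : S' = S) (Ω : Type) [Field Ω] [Algebra ℂ Ω] [IsAlgClosed Ω] :
    Sep (ev Ω F i) {z : F i | (z : K) ∈ S'} (r + 1) := by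
  subst h
  subst hS
  intro A hA c hc σ hσ
  exact hs Ω A (Nat.lt_succ_iff.1 hA) c (fun s hs => hc s hs) σ hσ

/-- sections with the separation property do not vanish -/
theorem exists_sec {E : IntermediateField ℂ K} {S : Set K} {r : ℕ} (hs : Separates E S r)
    (hr : 0 < r) : ∃ s ∈ S, s ∈ E ∧ s ≠ 0 := by
  by_contra hcon
  push Not at hcon
  let σ : E →ₐ[ℂ] AlgebraicClosure K := IsScalarTower.toAlgHom ℂ E (AlgebraicClosure K)
  have h1 := hs (AlgebraicClosure K) {σ} (by rw [Finset.card_singleton]; exact hr) (fun _ => 1)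
    (fun s hsS => by
      rw [Finset.sum_singleton, one_mul]
      have h2 : s = 0 := Subtype.ext (hcon s hsS s.2)
      rw [h2, map_zero]) σ (Finset.mem_singleton_self σ)
  exact one_ne_zero h1

variable {L : Type} [Field L] [Algebra ℂ L] [Algebra L K] [IsScalarTower ℂ L K]
  [FiniteDimensional L K]

theorem deg_pos (F : Fin k → IntermediateField ℂ K) (i : Fin k) : 0 < deg F L i := by
  unfold deg
  exact finrank_pos

/-- the trace on the image in the product, with a frame of `W` -/
theorem trace_ne_frame [Algebra.EssFiniteType ℂ K] {n : ℕ} {M : IntermediateField L K}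
    {y : Fin n → L} {E : Fin n → Derivation ℂ L L} (hy : IsTranscendenceBasis ℂ y)
    (hE : ∀ i j, E i (y j) = if i = j then 1 else 0) {E' : Fin n → Derivation ℂ K K}
    (hE' : ∀ i f, E' i (algebraMap L K f) = algebraMap L K (E i f))
    {ω : (Fin n → Derivation ℂ K K) → K} (hω : IsPluri 1 ω)
    (htn : TraceNe ω (M.restrictScalars ℂ)) : Algebra.trace M K (ω E') ≠ 0 := by
  have hyK : IsTranscendenceBasis ℂ (fun j => algebraMap L K (y j)) := hy.algebraMap_comp
  have hE'd := Pool.Agent.Y172.lift_dual hE hE'
  obtain ⟨F, hF⟩ : ∃ F : IntermediateField ℂ K, F = M.restrictScalars ℂ := ⟨_, rfl⟩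
  rw [← hF] at htn
  have hLF : ∀ f : L, algebraMap L K f ∈ F := by
    intro f
    rw [hF]
    exact M.algebraMap_mem f
  obtain ⟨D, D', hD, htr'⟩ := htn
  intro h0
  apply htr'
  have h1 : Algebra.trace F K (ω E') = 0 := by
    subst hF
    have h2 : ((Algebra.trace M K (ω E') : M) : K) = 0 := by
      rw [h0]
      rfl
    apply Subtype.ext
    exact h2
  obtain ⟨δ, hδ⟩ : ∃ δ : F, δ = (Matrix.of fun i j => D i ⟨algebraMap L K (y j), hLF _⟩ :
    Matrix (Fin n) (Fin n) F).det := ⟨_, rfl⟩
  have h2 : ω D' = δ • ω E' := by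
    rw [Pool.Agent.Y172.pluri_coord hyK hE'd hω D', pow_one, Algebra.smul_def, hδ,
      RingHom.map_det]
    congr 1
    congr 1
    ext i j
    rw [RingHom.mapMatrix_apply, Matrix.map_apply, Matrix.of_apply, Matrix.of_apply]
    exact hD i ⟨algebraMap L K (y j), hLF _⟩
  rw [h2, map_smul, h1, smul_zero]

/-- multiples by functions of the base generate the differentials of the fibres too -/
theorem gen_smul {n : ℕ} {B : IntermediateField ℂ K} {J : Type}
    {ω : J → (Fin (n + 1) → Derivation ℂ K K) → K} (h : Gen B ω) {s : K} (hs : s ∈ B)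
    (hs0 : s ≠ 0) : Gen B (fun j D => s * ω j D) := by
  intro t ξ ht hZ E hE D hD f hf
  have h1 := h t ξ ht hZ E hE D hD f hf
  obtain ⟨c, hc⟩ : ∃ c : algebraicClosure B (AlgebraicClosure K),
      c = algebraMap B _ ⟨s, hs⟩ := ⟨_, rfl⟩
  have hcs : algebraMap _ (GF B) c = toGF B s := by
    rw [hc]
    apply Subtype.ext
    rfl
  have hc0 : c ≠ 0 := by
    rw [hc, Ne, map_eq_zero]
    intro h0
    exact hs0 (congrArg Subtype.val h0)
  refine Submodule.span_le.2 ?_ h1
  rintro _ ⟨j, rfl⟩
  have h2 : toGF B (ω j E) = c⁻¹ • toGF B (s * ω j E) := by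
    have h3 : toGF B (s * ω j E) = toGF B s * toGF B (ω j E) := by
      apply Subtype.ext
      exact map_mul (algebraMap K (AlgebraicClosure K)) _ _
    rw [h3, Algebra.smul_def, ← hcs, ← mul_assoc, ← map_mul, inv_mul_cancel₀ hc0, map_one,
      one_mul]
  change toGF B (ω j E) ∈ _
  rw [h2]
  exact Submodule.smul_mem _ _ (Submodule.subset_span ⟨j, rfl⟩)

end

end Pool.Agent.J4.H18.MS
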